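import Pool.Agent.T9h55.KT.Law
import Pool.Agent.T9h55.KT.Ex
import Pool.Agent.T9h55.RM.Model

/-!
# The equality of Hardy and Littlewood for almost all small perturbations of the primes which keep the residues

Let `z_1 ≤ z_2 ≤ …` tend to infinity slowly, `z_p! ≤ (log p)^A`, and move every prime `p` to `p + z_p! ξ_p` with independent
random integers `ξ_p`, uniformly distributed on `0, …, H_p - 1`, where `p / (log p)^A ≤ z_p! H_p ≤ p (log p)^A`. So a large
prime keeps its residues modulo all fixed integers, and (for `H_p` as small as possible) it is moved by at most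
`2 p / (log p)^A`, `A` arbitrarily large. Let `V` be the set of the moved primes. It is proved that almost surely the
assertion of the problem is true for `V`, for all `k`: the upper limit of the number of the elements of `V` in `(x, x + k]` is
`max_m h_m(k)`, where `h_m(k)` is the number of the integers in `(m, m + k]` without prime factors up to `k`.

Moreover all full admissible patterns recur: for all `k` and `m` at least `X / (log X)^D` of the `x ≤ X` are congruent to `m`
modulo the primes up to `k` and such that the elements of `V` in `(x, x + k]` are exactly the numbers `x + y` such that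
`m + y` has no prime factor up to `k`, with `D = 2 A + 5 + (3 A + 4) k`, for all large `X`.

Proof. The theorem of Siegel and Walfisz gives enough primes in the required residue classes shortly below `x`. The numbers
`x + y` are reached by primes of disjoint intervals for different `y`, so that these events are independent, and for
different `x` they are nonpositively correlated; the second moment and the lemma of Borel and Cantelli (for `X = 2^n`) finish
the proof.
-/

set_option autoImplicit false

namespace Pool.Agent.Results.MP_cbf366_nt.PerturbedPrimes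

open Finset Filter Topology MeasureTheory ProbabilityTheory

/-- The integer `n` has no prime factor `≤ k`. -/
def Free (k n : ℕ) : Prop := ∀ p : ℕ, p.Prime → p ≤ k → ¬ p ∣ n

open Classical in
/-- `h_m(k)`: the number of the integers `n`, `m < n ≤ m + k`, without prime factors `≤ k`. -/
noncomputable def h (m k : ℕ) : ℕ := ((Ioc m (m + k)).filter fun n => Free k n).card

/-- The set of the moved primes `p + z_p! ξ_p`. -/
def moved (z ξ : ℕ → ℕ) : Set ℕ := {n | ∃ p : ℕ, p.Prime ∧ n = p + (z p).factorial * ξ p}

open Classical in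
/-- The number of the elements of `V` in `(x, x + k]`. -/
noncomputable def count (V : Set ℕ) (x k : ℕ) : ℕ := ((Ioc x (x + k)).filter fun n => n ∈ V).card

open Classical in
/-- The `x ≤ X` congruent to `m` modulo the primes `p ≤ k`, such that the elements of `V` in `(x, x + k]` are exactly the
numbers `x + y` such that `m + y` has no prime factor `≤ k`. -/
noncomputable def full (V : Set ℕ) (k m X : ℕ) : Finset ℕ :=
  (Icc 1 X).filter fun x => (∀ p : ℕ, p.Prime → p ≤ k → x ≡ m [MOD p]) ∧ ∀ y ∈ Ioc 0 k, (x + y ∈ V ↔ Free k (m + y))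

/-- The integers `ξ_0, ξ_1, …` are independent random variables (on a probability space), and for `j ≥ 1` the variable `ξ_j` is
uniformly distributed on `0, …, H_j - 1`. -/
structure Perturbation {Ω : Type*} [MeasurableSpace Ω] (μ : Measure Ω) (H : ℕ → ℕ) (ξ : ℕ → Ω → ℕ) : Prop where
  prob : IsProbabilityMeasure μ
  meas : ∀ j, Measurable (ξ j)
  indep : iIndepFun ξ μ
  unif : ∀ j, 1 ≤ j → ∀ i < H j, μ.real {ω | ξ j ω = i} = 1 / (H j : ℝ)

/-- The admissible parameters: `z_n` is nondecreasing and tends to infinity, and for all large `n` one has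
`z_n! ≤ (log n)^A` and `n / (log n)^A ≤ z_n! H_n ≤ n (log n)^A`. -/
structure Admissible (A : ℕ) (z H : ℕ → ℕ) : Prop where
  mono : Monotone z
  tendsto : Tendsto z atTop atTop
  modulus : ∀ᶠ n : ℕ in atTop, (((z n).factorial : ℕ) : ℝ) ≤ Real.log n ^ A
  window : ∀ᶠ n : ℕ in atTop, (n : ℝ) / Real.log n ^ A ≤ ((z n).factorial : ℝ) * H n ∧
    ((z n).factorial : ℝ) * H n ≤ (n : ℝ) * Real.log n ^ A

lemma free_iff (k n : ℕ) : Free k n ↔ Nat.Coprime n (primorial k) := by
  constructor
  · intro hf
    rw [Nat.coprime_iff_gcd_eq_one]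
    by_contra hne
    obtain ⟨q, hq, hd⟩ := Nat.exists_prime_and_dvd hne
    exact hf q hq ((hq.dvd_primorial_iff).1 (hd.trans (Nat.gcd_dvd_right _ _))) (hd.trans (Nat.gcd_dvd_left _ _))
  · intro hc p hp hpk hd
    have h1 : p ∣ Nat.gcd n (primorial k) := Nat.dvd_gcd hd ((hp.dvd_primorial_iff).2 hpk)
    rw [hc] at h1
    exact hp.one_lt.ne' (Nat.dvd_one.1 h1)

lemma shift_card (x k : ℕ) (P : ℕ → Prop) [DecidablePred P] :
    ((Ioc x (x + k)).filter P).card = ((Ioc 0 k).filter fun y => P (x + y)).card := by
  symm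
  apply Finset.card_nbij (fun y => x + y)
  · intro y hy
    rw [mem_coe, mem_filter, mem_Ioc] at hy
    rw [mem_coe, mem_filter, mem_Ioc]
    beta_reduce
    exact ⟨⟨by omega, by omega⟩, hy.2⟩
  · intro a _ b _ hab
    have : x + a = x + b := hab
    omega
  · intro n hn
    rw [mem_coe, mem_filter, mem_Ioc] at hn
    refine ⟨n - x, ?_, ?_⟩
    · rw [mem_coe, mem_filter, mem_Ioc]
      have : x + (n - x) = n := by omega
      rw [this]
      exact ⟨⟨by omega, by omega⟩, hn.2⟩
    · show x + (n - x) = n
      omega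

lemma exists_max (k : ℕ) : ∃ m₀, ∀ m, h m k ≤ h m₀ k := by
  classical
  have hb : BddAbove (Set.range fun m => h m k) := by
    refine ⟨k, ?_⟩
    rintro _ ⟨m, rfl⟩
    show h m k ≤ k
    unfold h
    refine (card_filter_le _ _).trans ?_
    rw [Nat.card_Ioc]
    omega
  obtain ⟨m₀, hm₀⟩ := Nat.sSup_mem (Set.range_nonempty fun m => h m k) hb
  refine ⟨m₀, fun m => ?_⟩
  have h1 : h m k ≤ sSup (Set.range fun m => h m k) := le_csSup hb ⟨m, rfl⟩
  have h2 : h m₀ k = sSup (Set.range fun m => h m k) := hm₀
  omega

universe u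

/-- For every `A ≥ 1` there are admissible `z`, `H` with `H_n ≥ 1` and `z_n! H_n ≤ 2 n / (log n)^A` for large `n`; for all
admissible `z`, `H` with `H_n ≥ 1` there are independent `ξ_n`, uniform on `0, …, H_n - 1`, and for all such `ξ_n` almost
surely for all `k` the set `V` of the moved primes satisfies:

(1) for all `m` and all large `X`, at least `X / (log X)^D`, `D = 2 A + 5 + (3 A + 4) k`, of the `x ≤ X` are congruent to `m`
modulo the primes up to `k` and such that the elements of `V` in `(x, x + k]` are exactly the numbers `x + y` for which `m + y`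
has no prime factor up to `k`;

(2) for some `m₀`, `h_{m₀}(k)` is the maximum of the `h_m(k)`, the number of the elements of `V` in `(x, x + k]` is `h_{m₀}(k)`
for infinitely many `x`, and at most `h_{m₀}(k)` for all large `x`. -/
theorem result :
    (∀ A : ℕ, 1 ≤ A → ∃ z H : ℕ → ℕ, Admissible A z H ∧ (∀ n, 1 ≤ H n) ∧
      ∀ᶠ n : ℕ in atTop, ((z n).factorial : ℝ) * H n ≤ 2 * ((n : ℝ) / Real.log n ^ A)) ∧
    ∀ (A : ℕ) (z H : ℕ → ℕ), Admissible A z H →
      ((∀ n, 1 ≤ n → 1 ≤ H n) →
        ∃ (Ω : Type) (_ : MeasurableSpace Ω) (μ : Measure Ω) (ξ : ℕ → Ω → ℕ), Perturbation μ H ξ) ∧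
      ∀ (Ω : Type u) [MeasurableSpace Ω] (μ : Measure Ω) (ξ : ℕ → Ω → ℕ), Perturbation μ H ξ →
        ∀ᵐ ω ∂μ, ∀ k : ℕ,
          (∀ m : ℕ, ∀ᶠ X : ℕ in atTop, (X : ℝ) / Real.log X ^ (2 * A + 5 + (3 * A + 4) * k) ≤
            (full (moved z fun p => ξ p ω) k m X).card) ∧
          ∃ m₀ : ℕ, (∀ m, h m k ≤ h m₀ k) ∧ (∃ᶠ x in atTop, count (moved z fun p => ξ p ω) x k = h m₀ k) ∧
            ∀ᶠ x in atTop, count (moved z fun p => ξ p ω) x k ≤ h m₀ k := by
  classical
  have hlog : Tendsto (fun k : ℕ => Real.log (k : ℝ)) atTop atTop :=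
    Real.tendsto_log_atTop.comp tendsto_natCast_atTop_atTop
  refine ⟨fun A hA => ?_, fun A z H hadm => ⟨fun hH => ?_, ?_⟩⟩
  · obtain ⟨z, H, h3, h4, h5, h6, h7⟩ := Pool.Agent.T9h55.KT.exists_adm A
    refine ⟨z, H, ⟨h3, h4, ?_, ?_⟩, h7, ?_⟩
    · filter_upwards [h5, hlog.eventually_ge_atTop 1] with k h8 h9
      exact h8.trans (le_self_pow₀ h9 (by omega))
    · filter_upwards [h6, hlog.eventually_ge_atTop 2] with k h8 h9
      refine ⟨h8.1, h8.2.trans ?_⟩
      have h10 : 2 ≤ Real.log k ^ A := le_trans h9 (le_self_pow₀ (by linarith) (by omega))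
      have h11 : (0 : ℝ) ≤ (k : ℝ) := by positivity
      have h12 : (k : ℝ) / Real.log k ^ A ≤ (k : ℝ) / 2 := div_le_div_of_nonneg_left h11 two_pos h10
      have h13 : (k : ℝ) ≤ (k : ℝ) * Real.log k ^ A := le_mul_of_one_le_right h11 (by linarith)
      linarith
    · filter_upwards [h6] with k h8
      exact h8.2
  · obtain ⟨Ω, mΩ, μ, ξ, h3, h4, h5, h6⟩ := Pool.Agent.T9h55.RM.exists_unif H hH
    exact ⟨Ω, mΩ, μ, ξ, ⟨h3, h4, h5, h6⟩⟩
  · intro Ω _ μ ξ hξ
    have := hξ.prob
    have hall : ∀ᵐ ω ∂μ, ∀ k m : ℕ, ∀ᶠ X : ℕ in atTop, (X : ℝ) / Real.log X ^ (2 * A + 4 + (3 * A + 4) * k) ≤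
        (Pool.Agent.T9h55.KT.goodUpTo z ξ k m X ω).card := by
      rw [ae_all_iff]
      intro k
      rw [ae_all_iff]
      intro m
      exact Pool.Agent.T9h55.KT.almost A k m z H ξ hadm.mono hadm.tendsto hadm.modulus hadm.window hξ.meas hξ.indep
        hξ.unif
    filter_upwards [hall] with ω hω k
    set V : Set ℕ := moved z fun p => ξ p ω with hV
    have hVe : Pool.Agent.T9h55.KT.moved z ξ ω = V := rfl
    have hsmall := Pool.Agent.T9h55.KT.no_small k z ξ hadm.tendsto ω
    rw [hVe] at hsmall
    obtain ⟨x1, hx1⟩ := eventually_atTop.1 hsmall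
    have hone : ∀ m : ℕ, ∀ᶠ X : ℕ in atTop, (X : ℝ) / Real.log X ^ (2 * A + 5 + (3 * A + 4) * k) ≤ (full V k m X).card := by
      intro m
      filter_upwards [hω k m, hlog.eventually_ge_atTop 2, Pool.Agent.T9h55.KT.pow_log_le (x1 + 1) (2 * A + 5 + (3 * A + 4) * k),
        eventually_ge_atTop 1] with X h1 h2 h3 h4
      set L : ℝ := Real.log X with hL
      have hL0 : 0 < L := by linarith
      have hX0 : (0 : ℝ) < X := by exact_mod_cast h4
      have hsub : Pool.Agent.T9h55.KT.goodUpTo z ξ k m X ω ⊆ full V k m X ∪ Icc 1 x1 := by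
        intro x hx
        unfold Pool.Agent.T9h55.KT.goodUpTo at hx
        rw [mem_filter, hVe] at hx
        obtain ⟨hx2, hx3, hx4⟩ := hx
        rw [mem_Icc] at hx2
        rw [mem_union]
        rcases Nat.lt_or_ge x1 x with hc | hc
        · left
          unfold full
          rw [mem_filter, mem_Icc]
          refine ⟨hx2, fun p hp hpk => hx3.of_dvd ((hp.dvd_primorial_iff).2 hpk), fun y hy => ?_⟩
          constructor
          · intro hmem
            have h5 := hx1 (x + y) (by omega) hmem
            rw [← free_iff] at h5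
            intro p hp hpk hd
            have h6 : x + y ≡ m + y [MOD p] := (hx3.of_dvd ((hp.dvd_primorial_iff).2 hpk)).add_right y
            exact h5 p hp hpk ((h6.dvd_iff dvd_rfl).2 hd)
          · intro hf
            apply hx4
            unfold Pool.Agent.T9h55.KT.sv
            rw [mem_filter]
            exact ⟨hy, (free_iff k (m + y)).1 hf⟩
        · right
          rw [mem_Icc]
          omega
      have hcard := (card_le_card hsub).trans (card_union_le _ _)
      rw [Nat.card_Icc, Nat.add_sub_cancel] at hcard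
      have hcardr : ((Pool.Agent.T9h55.KT.goodUpTo z ξ k m X ω).card : ℝ) ≤ (full V k m X).card + x1 := by
        exact_mod_cast hcard
      have e1 : 2 * A + 5 + (3 * A + 4) * k = (2 * A + 4 + (3 * A + 4) * k) + 1 := by ring
      have h5 : (X : ℝ) / L ^ (2 * A + 4 + (3 * A + 4) * k) = L * (X / L ^ (2 * A + 5 + (3 * A + 4) * k)) := by
        rw [e1, pow_succ]
        field_simp
      have h6 : (x1 : ℝ) ≤ X / L ^ (2 * A + 5 + (3 * A + 4) * k) := by
        rw [le_div_iff₀ (by positivity)]
        have : 0 ≤ L ^ (2 * A + 5 + (3 * A + 4) * k) := by positivity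
        nlinarith
      have h7 : 0 < (X : ℝ) / L ^ (2 * A + 5 + (3 * A + 4) * k) := by positivity
      rw [h5] at h1
      nlinarith
    refine ⟨hone, ?_⟩
    obtain ⟨m₀, hm₀⟩ := exists_max k
    refine ⟨m₀, hm₀, ?_, ?_⟩
    · rw [frequently_atTop]
      intro a
      obtain ⟨X, h1, h2, h3, h4⟩ := ((hone m₀).and ((hlog.eventually_ge_atTop 2).and
        ((Pool.Agent.T9h55.KT.pow_log_le (a + 1) (2 * A + 5 + (3 * A + 4) * k)).and (eventually_ge_atTop 1)))).exists
      have hL0 : 0 < Real.log X := by linarith
      have h5 : ((a : ℝ) + 1) ≤ X / Real.log X ^ (2 * A + 5 + (3 * A + 4) * k) := by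
        rw [le_div_iff₀ (by positivity)]
        exact h3
      have h6 : ((a : ℝ) + 1) ≤ (full V k m₀ X).card := h5.trans h1
      have h7 : a + 1 ≤ (full V k m₀ X).card := by exact_mod_cast h6
      have h8 : ∃ x ∈ full V k m₀ X, a ≤ x := by
        by_contra hc
        push Not at hc
        have h9 : full V k m₀ X ⊆ range a := by
          intro x hx
          rw [mem_range]
          exact hc x hx
        have h10 := card_le_card h9
        rw [card_range] at h10
        omega
      obtain ⟨x, hx, hax⟩ := h8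
      refine ⟨x, hax, ?_⟩
      unfold full at hx
      rw [mem_filter] at hx
      unfold count h
      rw [shift_card, shift_card]
      congr 1
      apply filter_congr
      intro y hy
      exact hx.2.2 y hy
    · filter_upwards [eventually_ge_atTop x1] with x hx
      refine le_trans ?_ (hm₀ x)
      unfold count h
      apply card_le_card
      intro n hn
      rw [mem_filter] at hn ⊢
      refine ⟨hn.1, ?_⟩
      rw [mem_Ioc] at hn
      exact (free_iff k n).2 (hx1 n (by omega) hn.2)

end Pool.Agent.Results.MP_cbf366_nt.PerturbedPrimes
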