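import Pool.Agent.T9h23.Nx.N4

/-!
# The prime patterns of Hardy and Littlewood in windows of the values of almost all polynomials near `X`

Let `k ≥ 1`, `h = max_m h_m(k)`, `d ≥ h`, and let `W` be divisible by all primes up to `(d + 1) k` (for instance `W = z !`
for an arbitrarily large `z`). For almost all integer vectors `a` with `|a_i| ≤ H` the polynomial

  `f = X + W (X ^ (d + 1) + a_d X ^ d + ... + a_0)`,

which is congruent to `X` modulo `W`, has the property which the question claims for `X`: no window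
`f(n + 1), ..., f(n + k)`, `n ≥ 0`, contains more than `h_n(k)` primes `> k`, and for EVERY `m` there are
`n ≤ (log H) ^ (h_m(k) + ε)`, `n = m` modulo `k !`, such that `|f(n + y)|` is a prime `> k` for exactly the `h_m(k)`
positions `y` for which `m + y` has no prime factor `≤ k`. In particular the maximal number of primes `> k` in the
windows is exactly `max_m h_m(k)`, and it is attained at an `n ≤ (log H) ^ (h + ε)`.

* `T9h23.Nx.om_lt`: the local densities of the systems `f(k ! X + m + y)`, `y` a surviving position, are positive: for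
  `p ≤ k` since `f = X` modulo `p`, and for `p > k` since the product of the system is modulo `p` a polynomial of degree
  less than `p` which is not zero.
* `T9h23.Nx.Dn_low`: the truncated Euler products are at least a power of `∏ (1 - 1 / p)`.
* `T9h23.Nx.cnt`: the quantitative Hypothesis H for almost all members of the family (the second moments behind
  `MP_51e72e_nt.CompositionSystems`, `Pool.Agent.T9h23.BH.fin`), applied at the height `W H` to all `m < k !`.
-/

set_option autoImplicit false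

namespace Pool.Agent.Results.MP_cbf366_nt.PolynomialsNearX

open Finset
open scoped Classical Nat

/-- the value at `n` of the polynomial `X + W (X ^ (d + 1) + a_d X ^ d + ... + a_0)` -/
def value (W : ℕ) {d : ℕ} (a : Fin (d + 1) → ℤ) (n : ℕ) : ℤ :=
  n + W * ((n : ℤ) ^ (d + 1) + ∑ i : Fin (d + 1), a i * (n : ℤ) ^ (i : ℕ))

/-- the positions `0 < y ≤ k` such that `m + y` has no prime factor `≤ k`; their number is `h_m(k)` -/
noncomputable def survivors (k m : ℕ) : Finset ℕ :=
  (Icc 1 k).filter fun y => ∀ p : ℕ, p.Prime → p ≤ k → ¬ p ∣ m + y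

/-- the positions `0 < y ≤ k` such that `|f(n + y)|` is a prime greater than `k` -/
noncomputable def window (W : ℕ) {d : ℕ} (a : Fin (d + 1) → ℤ) (k n : ℕ) : Finset ℕ :=
  (Icc 1 k).filter fun y => (value W a (n + y)).natAbs.Prime ∧ k < (value W a (n + y)).natAbs

/-- the prime patterns in the windows of the values of the polynomial; `h` is the maximum of the `h_m(k)` -/
structure Good (k W h : ℕ) {d : ℕ} (ε : ℝ) (A H : ℕ) (a : Fin (d + 1) → ℤ) : Prop where
  /-- primes can only occur at the surviving positions -/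
  upper : ∀ n : ℕ, window W a k n ⊆ survivors k n
  /-- full patterns occur in each class modulo `k !` -/
  pattern : ∀ m x : ℕ, Real.log H ^ (((survivors k m).card : ℝ) + ε) ≤ x → (x : ℝ) ≤ Real.log H ^ A →
    (x : ℝ) / Real.log H ^ (((survivors k m).card : ℝ) + ε) ≤
      ((Icc 1 x).filter fun n => n ≡ m [MOD k !] ∧ window W a k n = survivors k m).card
  /-- the maximum over all windows -/
  maximum : IsGreatest (Set.range fun n => (window W a k n).card) h
  /-- it is attained early -/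
  early : ∃ n : ℕ, (n : ℝ) ≤ Real.log H ^ ((h : ℝ) + ε) ∧ (window W a k n).card = h

theorem value_eq (W : ℕ) {d : ℕ} (a : Fin (d + 1) → ℤ) (n y : ℕ) :
    value W a (n + y) = T9h23.Nx.val W a ((n : ℤ) + y) := by
  unfold value T9h23.Nx.val
  push_cast
  rfl

theorem survivors_eq (k m : ℕ) : survivors k m = T9h23.Nx.surv k m := rfl

theorem survivors_mod (k m : ℕ) : survivors k (m % k !) = survivors k m := by
  unfold survivors
  refine Finset.filter_congr fun y _ => ?_
  refine forall_congr' fun p => forall_congr' fun hp => forall_congr' fun hpk => ?_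
  have h1 : m + y = k ! * (m / k !) + (m % k ! + y) := by
    have := Nat.div_add_mod m (k !)
    omega
  have h2 : p ∣ k ! * (m / k !) := Dvd.dvd.mul_right (hp.dvd_factorial.2 hpk) _
  rw [h1, Nat.dvd_add_right h2]

theorem survivors_congr (k m n : ℕ) (h : n % k ! = m % k !) : survivors k n = survivors k m := by
  rw [← survivors_mod k n, h, survivors_mod k m]

theorem upper_aux (k W : ℕ) {d : ℕ} (a : Fin (d + 1) → ℤ) (hW : ∀ p : ℕ, p.Prime → p ≤ k → p ∣ W) (n : ℕ) :
    window W a k n ⊆ survivors k n := by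
  intro y hy
  unfold window at hy
  rw [mem_filter] at hy
  obtain ⟨hy1, hy2, hy3⟩ := hy
  unfold survivors
  rw [mem_filter]
  refine ⟨hy1, ?_⟩
  intro p hp hpk hdvd
  have hpW : (p : ℤ) ∣ (W : ℤ) := by exact_mod_cast hW p hp hpk
  have h1 : (p : ℤ) ∣ value W a (n + y) := by
    rw [value_eq, T9h23.Nx.val_dvd W a _ _ hpW]
    exact_mod_cast hdvd
  have h2 : p ∣ (value W a (n + y)).natAbs := by
    rw [← Int.natCast_dvd]
    exact h1
  have h3 := (Nat.prime_dvd_prime_iff_eq hp hy2).1 h2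
  omega

theorem window_full (k W : ℕ) {d : ℕ} (a : Fin (d + 1) → ℤ) (hW : ∀ p : ℕ, p.Prime → p ≤ k → p ∣ W) (n m : ℕ)
    (hnm : n % k ! = m % k !) (hp : ∀ b ∈ T9h23.Nx.surv k (m % k !), (T9h23.Nx.val W a ((n : ℤ) + b)).natAbs.Prime) :
    window W a k n = survivors k m := by
  apply Finset.Subset.antisymm
  · rw [← survivors_congr k m n hnm]
    exact upper_aux k W a hW n
  · intro y hy
    have hy1 : y ∈ survivors k n := by rw [survivors_congr k m n hnm]; exact hy
    have hy2 : y ∈ T9h23.Nx.surv k (m % k !) := by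
      rw [← survivors_eq, survivors_mod]
      exact hy
    have h1 := hp y hy2
    unfold window
    rw [mem_filter, value_eq]
    unfold survivors at hy1
    rw [mem_filter] at hy1
    refine ⟨hy1.1, h1, ?_⟩
    by_contra hcon
    push Not at hcon
    obtain ⟨q, hq⟩ : ∃ q : ℕ, q = (T9h23.Nx.val W a ((n : ℤ) + y)).natAbs := ⟨_, rfl⟩
    rw [← hq] at h1 hcon
    have hqW : (q : ℤ) ∣ (W : ℤ) := by exact_mod_cast hW q h1 hcon
    have h2 : (q : ℤ) ∣ T9h23.Nx.val W a ((n : ℤ) + y) := by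
      rw [Int.natCast_dvd, hq]
    rw [T9h23.Nx.val_dvd W a _ _ hqW] at h2
    exact hy1.2 q h1 hcon (by exact_mod_cast h2)

/-- **The patterns of Hardy and Littlewood for almost all polynomials near `X`.** -/
theorem result (k d W h : ℕ) (hk : 1 ≤ k) (hh : IsGreatest (Set.range fun m => (survivors k m).card) h) (hd : h ≤ d)
    (hW0 : W ≠ 0) (hW : ∀ p : ℕ, p.Prime → p ≤ (d + 1) * k → p ∣ W) (ε : ℝ) (hε : 0 < ε) :
    ∃ c : ℝ, 0 < c ∧ ∀ A : ℕ, ∃ H₀ : ℕ, ∀ H : ℕ, H₀ ≤ H →
    ({a : Fin (d + 1) → ℤ | (∀ i, |a i| ≤ H) ∧ ¬ Good k W h ε A H a}.ncard : ℝ) ≤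
      (2 * (H : ℝ) + 1) ^ (d + 1) / Real.log H ^ c := by
  have hW1 : 1 ≤ W := Nat.one_le_iff_ne_zero.2 hW0
  have hWk : ∀ p : ℕ, p.Prime → p ≤ k → p ∣ W := fun p hp hpk =>
    hW p hp (hpk.trans (Nat.le_mul_of_pos_left k (by omega)))
  have hle : ∀ m, (survivors k m).card ≤ h := fun m => hh.2 ⟨m, rfl⟩
  have hh1 : 1 ≤ h := by
    refine le_trans ?_ (hle 0)
    rw [Nat.one_le_iff_ne_zero, Finset.card_ne_zero]
    refine ⟨1, ?_⟩
    unfold survivors
    rw [mem_filter, mem_Icc]
    refine ⟨⟨le_rfl, hk⟩, ?_⟩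
    intro p hp _ hdvd
    rw [zero_add, Nat.dvd_one] at hdvd
    exact hp.one_lt.ne' hdvd
  obtain ⟨c, hc, hcnt⟩ := T9h23.Nx.cnt k d W (by omega) hW1 hW (fun m => (hle m).trans hd) (ε / 2) (by positivity)
  refine ⟨c, hc, fun A => ?_⟩
  obtain ⟨A', hA'⟩ : ∃ A' : ℕ, A' = max A (d + ⌈ε⌉₊) := ⟨_, rfl⟩
  obtain ⟨H0, hH0⟩ := hcnt A'
  obtain ⟨H1, hH1⟩ := T9h23.Nx.evL 2 (ε / 2) (by positivity)
  obtain ⟨H2, hH2⟩ := T9h23.Nx.evL 1 1 one_pos
  refine ⟨max H0 (max H1 H2), fun H hH => ?_⟩
  have g0 := (le_max_left _ _).trans hH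
  have g1 := ((le_max_left _ _).trans (le_max_right _ _)).trans hH
  have g2 := ((le_max_right _ _).trans (le_max_right _ _)).trans hH
  have k1 := hH1 H g1
  have k2 := hH2 H g2
  rw [Real.rpow_one] at k2
  refine le_trans ?_ (hH0 H g0)
  rw [← Set.ncard_coe_finset]
  refine Nat.cast_le.2 (Set.ncard_le_ncard ?_ (finite_toSet _))
  rintro a ⟨ha1, ha2⟩
  rw [mem_coe, mem_filter, Pool.Agent.T9h23.Cor.mem_Box]
  refine ⟨ha1, fun hF => ha2 ?_⟩
  have hup := upper_aux k W a hWk
  have hkf : 0 < k ! := Nat.factorial_pos k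
  obtain ⟨L, hL⟩ : ∃ L : ℝ, L = Real.log H := ⟨_, rfl⟩
  rw [← hL] at k1 k2
  have hL0 : 0 < L := by linarith
  -- the patterns, with the exponent `ε / 2`
  have hpat : ∀ m x : ℕ, L ^ (((survivors k m).card : ℝ) + ε / 2) ≤ x → (x : ℝ) ≤ L ^ A' →
      (x : ℝ) / L ^ (((survivors k m).card : ℝ) + ε / 2) ≤
      (((Icc 1 x).filter fun n => n ≡ m [MOD k !] ∧ window W a k n = survivors k m).card : ℝ) := by
    intro m x hx1 hx2
    have h1 := hF (m % k !) (Nat.mod_lt _ hkf) x
    rw [← survivors_eq, survivors_mod, ← hL] at h1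
    refine (h1 hx1 hx2).trans ?_
    unfold T9h23.Nx.patt
    refine Nat.cast_le.2 (Finset.card_le_card ?_)
    intro n hn
    rw [mem_filter] at hn ⊢
    obtain ⟨hn1, hn2, hn3⟩ := hn
    refine ⟨hn1, hn2, ?_⟩
    exact window_full k W a hWk n m hn2 hn3
  have hearly : ∃ n : ℕ, (n : ℝ) ≤ L ^ ((h : ℝ) + ε) ∧ (window W a k n).card = h := by
    obtain ⟨m, hm⟩ := hh.1
    have hm' : (survivors k m).card = h := hm
    obtain ⟨x, hx⟩ : ∃ x : ℕ, x = ⌊L ^ ((h : ℝ) + ε)⌋₊ := ⟨_, rfl⟩
    have hpos : 0 ≤ L ^ ((h : ℝ) + ε) := Real.rpow_nonneg hL0.le _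
    have hx1 : (x : ℝ) ≤ L ^ ((h : ℝ) + ε) := by rw [hx]; exact Nat.floor_le hpos
    have hx2 : L ^ ((h : ℝ) + ε / 2) ≤ x := by
      have h1 : L ^ ((h : ℝ) + ε) - 1 < x := by
        rw [hx]
        have := Nat.lt_floor_add_one (L ^ ((h : ℝ) + ε))
        linarith
      have h2 : L ^ ((h : ℝ) + ε) = L ^ ((h : ℝ) + ε / 2) * L ^ (ε / 2) := by
        rw [← Real.rpow_add hL0]; congr 1; ring
      have h3 : 1 ≤ L ^ ((h : ℝ) + ε / 2) := Real.one_le_rpow k2 (by positivity)
      nlinarith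
    have hx3 : (x : ℝ) ≤ L ^ A' := by
      refine hx1.trans ?_
      rw [← Real.rpow_natCast]
      apply Real.rpow_le_rpow_of_exponent_le k2
      have h1 : ε ≤ (⌈ε⌉₊ : ℝ) := Nat.le_ceil ε
      have h2 : (h : ℝ) ≤ d := by exact_mod_cast hd
      have h3 : ((d + ⌈ε⌉₊ : ℕ) : ℝ) ≤ (A' : ℝ) := by
        rw [hA']
        exact_mod_cast le_max_right _ _
      push_cast at h3
      linarith
    have h1 := hpat m x (by rw [hm']; exact hx2) hx3
    have h2 : (0 : ℝ) < x := by
      have h3 : 0 < L ^ ((h : ℝ) + ε / 2) := Real.rpow_pos_of_pos hL0 _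
      linarith
    have h3 : (0 : ℝ) < (((Icc 1 x).filter fun n => n ≡ m [MOD k !] ∧ window W a k n = survivors k m).card : ℝ) := by
      refine lt_of_lt_of_le ?_ h1
      exact div_pos h2 (Real.rpow_pos_of_pos hL0 _)
    obtain ⟨n, hn⟩ := Finset.card_pos.1 (by exact_mod_cast h3)
    rw [mem_filter, mem_Icc] at hn
    refine ⟨n, ?_, ?_⟩
    · refine le_trans ?_ hx1
      exact_mod_cast hn.1.2
    · rw [hn.2.2]
      exact hm'
  refine ⟨hup, ?_, ?_, by rw [← hL]; exact hearly⟩
  · intro m x hx1 hx2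
    rw [← hL] at hx1 hx2 ⊢
    have hexp : L ^ (((survivors k m).card : ℝ) + ε / 2) ≤ L ^ (((survivors k m).card : ℝ) + ε) :=
      Real.rpow_le_rpow_of_exponent_le k2 (by linarith)
    have h1 := hpat m x (hexp.trans hx1) (hx2.trans (pow_le_pow_right₀ k2 (by rw [hA']; exact le_max_left _ _)))
    refine le_trans ?_ h1
    apply div_le_div_of_nonneg_left (Nat.cast_nonneg _) (Real.rpow_pos_of_pos hL0 _) hexp
  · constructor
    · obtain ⟨n, -, hn⟩ := hearly
      exact ⟨n, hn⟩
    · rintro _ ⟨n, rfl⟩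
      exact (Finset.card_le_card (hup n)).trans (hle n)

end Pool.Agent.Results.MP_cbf366_nt.PolynomialsNearX
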