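import Pool.Agent.H358R5.MainC
import Pool.Agent.H358R5.Three
import Pool.Agent.Y826.ZG.Final
import Pool.Agent.T9h60.PC.Asym

/-!
# The number of recurring patterns of primes in windows of length `k`

Let `h_j(k)` be the number of the integers in `(j, j + k]` without a prime factor `≤ k`. If
`x ≡ j` modulo all primes `p ≤ k` and `x ≥ k`, the primes in `(x, x + k]` are among the `h_j(k)` integers
`x + y` such that `j + y` has no prime factor `≤ k`; the set of these positions `y` of the primes is the
pattern of the window. Q1 asserts that for some `j` with `h_j(k)` maximal the full set of `h_j(k)`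
positions is the pattern of infinitely many windows (the conjecture of Hardy and Littlewood predicts this for
every `j`, and for every subset of the `h_j(k)` positions).

A pattern `B` is recurring in the class `j` if for every `ε > 0` and arbitrarily large `X` at least
`X ^ (1 - ε)` of the `x ≤ X`, `x ≡ j` modulo all primes `≤ k`, are such that the primes in `(x, x + k]` are
EXACTLY the numbers `x + y`, `y ∈ B`.

**Theorem.** (1) For every window with `h_j(k) ≥ K`, at least `binom(h_j(k), t + 1) / binom(K, t + 1)`
patterns with at least `t + 1` elements are recurring in the class `j`; here `t = 1` and `K = 45`, or `t = 2` and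
`K = 3560`, or `t ≥ 2` is arbitrary and `K ≥ exp(4 t + 0.58)`.

(2) For all `ε > 0` and all large `k`, at least `exp((1/16 - ε) (log k)²)` patterns of length `k` are
recurring, in a single class `j`. In particular the number of words of length `k` which occur infinitely
often in the sequence of the values of the indicator function of the primes grows faster than every
power of `k`.

Proof. For a set `T` of `K` of the `h_j(k)` positions one finds, by congruences modulo primes larger than `k`,
a residue class of `x` in which the numbers at all other positions are composite. By theorems of the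
starting files (`DHL[45,2]`: `Pool.Agent.Y826.ZG`; `Pool.Agent.H358R5`) at least `t + 1` of the numbers
`x + y`, `y ∈ T`, are prime for many of these `x`, so that some subset of `T` with at least `t + 1` elements
is a recurring pattern. Counting the sets `T` which contain a given pattern gives (1), and (2) follows with
`t` about `(log k) / 8`.
-/

set_option autoImplicit false

open Finset Filter Pool.Agent.H358R5

namespace Pool.Agent.Results.MP_cbf366_nt.RecurringPatterns

open Pool.Agent.T9h60.PC (survivors Recurs)

theorem lhyp45 : LHyp 1 45 := by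
  intro A B hA hne hloc ε hε
  filter_upwards [Pool.Agent.Y826.ZG.dhl45L A B ⟨hA, hne, hloc⟩ ε hε] with X hX
  refine hX.trans (Nat.cast_le.2 (Finset.card_le_card fun n hn => ?_))
  unfold H95R2.BG.LF.goodL at hn
  have hn' := Finset.mem_filter.1 hn
  refine Finset.mem_filter.2 ⟨hn'.1, ?_⟩
  obtain ⟨i, i', hii, h1, h2⟩ := hn'.2
  exact Finset.one_lt_card.2 ⟨i, mem_filter.2 ⟨mem_univ _, h1⟩, i', mem_filter.2 ⟨mem_univ _, h2⟩, hii⟩

/-- **The number of recurring patterns of primes.** -/
theorem result :
    (∀ k j t K : ℕ, (t = 1 ∧ K = 45 ∨ t = 2 ∧ K = 3560 ∨ 2 ≤ t ∧ Real.exp (4 * t + 29 / 50) ≤ K) →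
      K ≤ (survivors j k).card →
      (survivors j k).card.choose (t + 1) ≤
        K.choose (t + 1) * Set.ncard {B : Finset ℕ | t + 1 ≤ B.card ∧ Recurs j k B}) ∧
    (∀ ε : ℝ, 0 < ε → ∀ᶠ k : ℕ in atTop, ∃ j : ℕ, Real.exp ((1 / 16 - ε) * (Real.log k) ^ 2) ≤
      (Set.ncard {B : Finset ℕ | Recurs j k B} : ℝ)) := by
  refine ⟨fun k j t K hK hle => ?_, fun ε hε => Pool.Agent.T9h60.PC.many_patterns chyp ε hε⟩
  refine Pool.Agent.T9h60.PC.count_patterns ?_ hle
  rcases hK with ⟨rfl, rfl⟩ | ⟨rfl, rfl⟩ | ⟨ht, hK⟩
  · exact CLS_proof 1 45 lhyp45
  · exact chyp3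
  · exact chyp t K ht ((Real.le_log_iff_exp_le (lt_of_lt_of_le (Real.exp_pos _) hK)).2 hK)

end Pool.Agent.Results.MP_cbf366_nt.RecurringPatterns
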